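import Pool.Agent.Lib.MP_e0d433_co.Lower.Orbit

/-!
# MP_e0d433_co, lower bound: the abstract argument

`G` is the set of permutations (words), `τ p` the position of the first occurrence of `p` in the
superpermutation, `R` the rotation, `K` the rotation of all letters but the last one, `K'` the
rotation of all letters but the last two.
-/

namespace Pool.Agent.Lib.MP_e0d433_co.Lower

open Finset Classical

/-- The first occurrences in a superpermutation. -/
structure Occ (G : Type*) where
  n : ℕ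
  hn : 3 ≤ n
  R : Equiv.Perm G
  K : Equiv.Perm G
  K' : Equiv.Perm G
  L : ℕ
  τ : G → ℕ
  hR : FreeCyc R n
  hK : FreeCyc K (n - 1)
  hK' : K' ^ (n - 2) = 1
  inj : Function.Injective τ
  hL : ∀ p, τ p ≤ L
  F1 : ∀ p q, τ q = τ p + 1 → q = R p
  F2 : ∀ p q, τ q = τ p + 2 → q = K (R p) ∨ (q = R (R p) ∧ τ (R p) ≤ τ p + 1)
  F3 : ∀ p q, τ q = τ p + 3 → q = R (R (R p)) ∨ q = K (R (R p)) ∨ q = R (K (R p)) ∨
    q = K (K (R p)) ∨ R (R ((K⁻¹) ((K⁻¹) q))) = K (K (R p)) ∨ q = K' (K (R p))

variable {G : Type*} [Fintype G] (O : Occ G)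

namespace Occ

/-- entries: permutations whose first occurrence does not directly follow a first occurrence -/
noncomputable def E : Finset G := univ.filter (fun q => ∀ p, O.τ q ≠ O.τ p + 1)

/-- the permutations lying in a visited 2-loop -/
noncomputable def V : Finset G := hull O.K O.E

/-- first entries of the visited 2-loops -/
noncomputable def FA : Finset G := firsts O.K (fun p => (O.τ p : ℤ)) O.E

/-- last visited permutation of every 1-loop -/
noncomputable def LZ : Finset G := firsts O.R (fun p => -(O.τ p : ℤ)) univ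

/-- first visited permutation of every 1-loop -/
noncomputable def FZ : Finset G := firsts O.R (fun p => (O.τ p : ℤ)) univ

/-- wasted positions -/
noncomputable def W : Finset ℕ := (range (O.L + 1)) \ (univ.image O.τ)

noncomputable def M1 : Finset ℕ := O.W.filter (fun i => ∃ p ∈ O.LZ, i = O.τ p + 1)

noncomputable def M2 : Finset ℕ := O.W.filter (fun i => ∃ p ∈ O.FA, O.τ p = i + 1)

/-- extra wasted positions -/
noncomputable def X : Finset ℕ := O.W \ (O.M1 ∪ O.M2)

theorem mem_E {q : G} : q ∈ O.E ↔ ∀ p, O.τ q ≠ O.τ p + 1 := by simp [E]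

theorem mem_V {q : G} : q ∈ O.V ↔ ∃ i : ℕ, (O.K ^ i) q ∈ O.E := by simp [V, mem_hull]

theorem mem_FA {q : G} : q ∈ O.FA ↔ q ∈ O.E ∧ ∀ i : ℕ, (O.K ^ i) q ∈ O.E →
    O.τ q ≤ O.τ ((O.K ^ i) q) := by
  simp [FA, mem_firsts]

theorem mem_LZ {q : G} : q ∈ O.LZ ↔ ∀ i : ℕ, O.τ ((O.R ^ i) q) ≤ O.τ q := by
  simp [LZ, mem_firsts]

theorem mem_FZ {q : G} : q ∈ O.FZ ↔ ∀ i : ℕ, O.τ q ≤ O.τ ((O.R ^ i) q) := by
  simp [FZ, mem_firsts]

theorem mem_W {i : ℕ} : i ∈ O.W ↔ i ≤ O.L ∧ ∀ p, O.τ p ≠ i := by
  simp [W]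

theorem mem_M1 {i : ℕ} : i ∈ O.M1 ↔ i ∈ O.W ∧ ∃ p ∈ O.LZ, i = O.τ p + 1 := by simp [M1]

theorem mem_M2 {i : ℕ} : i ∈ O.M2 ↔ i ∈ O.W ∧ ∃ p ∈ O.FA, O.τ p = i + 1 := by simp [M2]

theorem mem_X {i : ℕ} : i ∈ O.X ↔ i ∈ O.W ∧ i ∉ O.M1 ∧ i ∉ O.M2 := by
  simp [X]

omit [Fintype G] in
theorem R_eq {p : G} : O.R p = (O.R ^ 1) p := by simp

omit [Fintype G] in
theorem K_eq {p : G} : O.K p = (O.K ^ 1) p := by simp

theorem FA_subset_E {q : G} (h : q ∈ O.FA) : q ∈ O.E := (O.mem_FA.1 h).1

theorem E_subset_V {q : G} (h : q ∈ O.E) : q ∈ O.V := O.mem_V.2 ⟨0, by simpa using h⟩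

theorem FA_unique {p q : G} (hp : p ∈ O.FA) (hq : q ∈ O.FA) {i : ℕ} (h : (O.K ^ i) p = q) :
    p = q := by
  obtain ⟨j, hj⟩ := O.hK.back p i
  rw [h] at hj
  have h1 := (O.mem_FA.1 hp).2 i (by rw [h]; exact O.FA_subset_E hq)
  have h2 := (O.mem_FA.1 hq).2 j (by rw [hj]; exact O.FA_subset_E hp)
  rw [h] at h1
  rw [hj] at h2
  exact O.inj (le_antisymm h1 h2)

theorem FZ_subset_E {q : G} (h : q ∈ O.FZ) : q ∈ O.E := by
  rw [mem_E]
  intro p hp
  have h1 := O.F1 p q hp
  obtain ⟨j, hj⟩ := O.hR.back p 1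
  rw [← O.R_eq, ← h1] at hj
  have := O.mem_FZ.1 h j
  rw [hj] at this
  omega

theorem card_G_LZ : Fintype.card G = O.n * O.LZ.card := by
  rw [LZ, ← O.hR.card]
  · rw [hull]; simp
  · intro a b h
    apply O.inj
    simpa using h

theorem card_G_FZ : Fintype.card G = O.n * O.FZ.card := by
  rw [FZ, ← O.hR.card]
  · rw [hull]; simp
  · intro a b h
    apply O.inj
    simpa using h

theorem card_V : O.V.card = (O.n - 1) * O.FA.card := by
  rw [FA, ← O.hK.card]
  · rfl
  · intro a b h
    apply O.inj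
    simpa using h

/-- The two types of wasted positions are different. -/
theorem M_disj : Disjoint O.M1 O.M2 := by
  rw [Finset.disjoint_left]
  intro i h1 h2
  obtain ⟨hW, p, hp, hi⟩ := O.mem_M1.1 h1
  obtain ⟨-, q, hq, hi2⟩ := O.mem_M2.1 h2
  have h3 : O.τ q = O.τ p + 2 := by omega
  rcases O.F2 p q h3 with h | h
  · -- `R p` was visited before `p`, and it is an entry
    have h4 : O.τ (O.R p) ≤ O.τ p := by
      have := O.mem_LZ.1 hp 1
      rwa [← O.R_eq] at this
    have h5 : O.R p ∈ O.E := by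
      rw [mem_E]
      intro r hr
      have h6 := O.F1 r _ hr
      have h7 : p = r := O.R.injective h6
      subst h7
      omega
    obtain ⟨j, hj⟩ := O.hK.back (O.R p) 1
    rw [← O.K_eq, ← h] at hj
    have h6 := (O.mem_FA.1 hq).2 j (by rw [hj]; exact h5)
    rw [hj] at h6
    omega
  · have := O.mem_LZ.1 hp 2
    have h4 : (O.R ^ 2) p = O.R (O.R p) := by
      rw [pow_two, Equiv.Perm.mul_apply]
    rw [h4, ← h.1] at this
    omega

theorem card_W : O.W.card + Fintype.card G = O.L + 1 := by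
  have h1 : (univ.image O.τ).card = Fintype.card G := by
    rw [Finset.card_image_of_injective _ O.inj, Finset.card_univ]
  have h2 : univ.image O.τ ⊆ range (O.L + 1) := by
    intro i hi
    simp only [mem_image, mem_univ, true_and] at hi
    obtain ⟨p, rfl⟩ := hi
    simpa [Nat.lt_succ_iff] using O.hL p
  have h3 := Finset.card_sdiff_add_card_eq_card h2
  rw [h1, Finset.card_range] at h3
  rw [W]
  convert h3 using 3

theorem card_M1 : O.LZ.card ≤ O.M1.card + 1 := by
  by_cases hG : Nonempty G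
  · obtain ⟨m, -, hm⟩ := Finset.exists_max_image (univ : Finset G) O.τ (by simp)
    have h1 : (O.LZ.erase m).card ≤ O.M1.card := by
      refine Finset.card_le_card_of_injOn (fun p => O.τ p + 1) ?_ ?_
      · intro p hp
        simp only [coe_erase, Set.mem_sdiff, mem_coe, Set.mem_singleton_iff] at hp
        obtain ⟨hp, hpm⟩ := hp
        have hlt : O.τ p < O.τ m :=
          lt_of_le_of_ne (hm p (mem_univ _)) (fun e => hpm (O.inj e))
        have := O.hL m
        refine O.mem_M1.2 ⟨O.mem_W.2 ⟨by dsimp only; omega, ?_⟩, p, hp, rfl⟩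
        intro q hq
        dsimp only at hq
        have h2 := O.F1 p q hq
        have h3 := O.mem_LZ.1 hp 1
        rw [← O.R_eq, ← h2] at h3
        omega
      · intro p _ q _ h
        apply O.inj
        simpa using h
    have := Finset.card_erase_le (s := O.LZ) (a := m)
    have := Finset.pred_card_le_card_erase (s := O.LZ) (a := m)
    omega
  · have : IsEmpty G := not_nonempty_iff.1 hG
    have : O.LZ = ∅ := Finset.eq_empty_of_isEmpty _
    rw [this]; simp

theorem card_M2 : O.FA.card ≤ O.M2.card + 1 := by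
  by_cases hG : Nonempty G
  · obtain ⟨m, -, hm⟩ := Finset.exists_min_image (univ : Finset G) O.τ (by simp)
    have h1 : (O.FA.erase m).card ≤ O.M2.card := by
      refine Finset.card_le_card_of_injOn (fun p => O.τ p - 1) ?_ ?_
      · intro p hp
        simp only [coe_erase, Set.mem_sdiff, mem_coe, Set.mem_singleton_iff] at hp
        obtain ⟨hp, hpm⟩ := hp
        have hlt : O.τ m < O.τ p :=
          lt_of_le_of_ne (hm p (mem_univ _)) (fun e => hpm (O.inj e.symm))
        have := O.hL p
        refine O.mem_M2.2 ⟨O.mem_W.2 ⟨by dsimp only; omega, ?_⟩, p, hp, by dsimp only; omega⟩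
        intro q hq
        exact O.mem_E.1 (O.FA_subset_E hp) q (by dsimp only at hq; omega)
      · intro p hp q hq h
        simp only [coe_erase, Set.mem_sdiff, mem_coe, Set.mem_singleton_iff] at hp hq
        have hlt : O.τ m < O.τ p :=
          lt_of_le_of_ne (hm p (mem_univ _)) (fun e => hp.2 (O.inj e.symm))
        have hlt' : O.τ m < O.τ q :=
          lt_of_le_of_ne (hm q (mem_univ _)) (fun e => hq.2 (O.inj e.symm))
        apply O.inj
        dsimp only at h
        omega
    have := Finset.pred_card_le_card_erase (s := O.FA) (a := m)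
    omega
  · have : IsEmpty G := not_nonempty_iff.1 hG
    have : O.FA = ∅ := Finset.eq_empty_of_isEmpty _
    rw [this]; simp

/-- The classical lower bound, with the number `O.FA.card` of visited 2-loops and the number of
extra wasted positions. -/
theorem count : Fintype.card G + O.LZ.card + O.FA.card + O.X.card ≤ O.L + 3 := by
  have h1 := O.card_W
  have h2 := O.card_M1
  have h3 := O.card_M2
  have h4 : O.X.card + (O.M1 ∪ O.M2).card = O.W.card := by
    rw [X]
    apply Finset.card_sdiff_add_card_eq_card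
    intro i hi
    rcases Finset.mem_union.1 hi with h | h
    · exact (O.mem_M1.1 h).1
    · exact (O.mem_M2.1 h).1
  rw [Finset.card_union_of_disjoint O.M_disj] at h4
  omega

end Occ

end Pool.Agent.Lib.MP_e0d433_co.Lower
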