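import Pool.Agent.Lib.MP_e0d433_co.Lower.Linked

/-!
# MP_e0d433_co, lower bound: counting the 2-loops that are not linked
-/

namespace Pool.Agent.Lib.MP_e0d433_co.Lower

open Finset Classical

variable {G : Type*} [Fintype G] (O : Occ G)

namespace Occ

/-- 2-loops which are not linked to the next one -/
noncomputable def NR : Finset G := O.FA.filter (fun f => ¬ O.Linked f)

/-- first entries reached by a link -/
noncomputable def LF : Finset G := O.FA.filter (fun g => ∃ h ∈ O.FA, O.Linked h ∧ O.K' h = g)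

/-- 2-loops which are not pure -/
noncomputable def G1 : Finset G := O.FA.filter (fun f => ¬ O.Pure f)

/-- pure, free 2-loops which are not linked -/
noncomputable def N0 : Finset G :=
  O.NR.filter (fun f => O.Pure f ∧ O.Free f ∧ O.τ (O.P f) + 2 ≤ O.L)

/-- pure 2-loops which are not free, or at the end of the word -/
noncomputable def NX : Finset G :=
  O.FA.filter (fun f => O.Pure f ∧ ¬ (O.Free f ∧ O.τ (O.P f) + 2 ≤ O.L))

theorem exists_NR {f : G} (hf : f ∈ O.FA) :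
    f ∈ O.NR ∨ ∃ j, 0 < j ∧ j < O.n - 2 ∧ (O.K' ^ j) f ∈ O.NR ∩ O.LF := by
  have hn := O.hn
  by_contra hcon
  push Not at hcon
  obtain ⟨hc0, hc1⟩ := hcon
  have key : ∀ j ≤ O.n - 2, (O.K' ^ j) f ∈ O.FA ∧ O.τ f + j ≤ O.τ ((O.K' ^ j) f) ∧
      (0 < j → (O.K' ^ j) f ∈ O.LF) := by
    intro j
    induction j with
    | zero => intro _; simpa using hf
    | succ j ih =>
      intro hj
      obtain ⟨h1, h2, h3⟩ := ih (by omega)
      have h4 : O.Linked ((O.K' ^ j) f) := by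
        by_contra h5
        have h6 : (O.K' ^ j) f ∈ O.NR := by
          simp only [NR, mem_filter]; exact ⟨h1, h5⟩
        rcases Nat.eq_zero_or_pos j with h0 | h0
        · subst h0
          exact hc0 (by simpa using h6)
        · exact hc1 j h0 (by omega) (mem_inter.2 ⟨h6, h3 h0⟩)
      obtain ⟨h5, h6, h7⟩ := id h4
      have h8 : (O.K' ^ (j + 1)) f = O.K' ((O.K' ^ j) f) := pow_succ_apply _ _ _
      rw [h8]
      refine ⟨h5, by omega, fun _ => ?_⟩
      simp only [LF, mem_filter]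
      exact ⟨h5, _, h1, h4, rfl⟩
  have h1 := (key (O.n - 2) le_rfl).2.1
  rw [O.hK'] at h1
  simp only [Equiv.Perm.one_apply] at h1
  omega

theorem card_FA_le : O.FA.card ≤ O.NR.card + (O.n - 3) * (O.NR ∩ O.LF).card := by
  have hn := O.hn
  have h1 : O.FA ⊆ O.NR ∪ (Ico 1 (O.n - 2) ×ˢ (O.NR ∩ O.LF)).image
      (fun x => ((O.K' ^ x.1)⁻¹) x.2) := by
    intro f hf
    rcases O.exists_NR hf with h | ⟨j, hj0, hj, hj2⟩
    · exact mem_union_left _ h
    · refine mem_union_right _ (mem_image.2 ⟨(j, (O.K' ^ j) f), ?_, ?_⟩)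
      · rw [mem_product, mem_Ico]
        exact ⟨⟨hj0, hj⟩, hj2⟩
      · simp
  calc O.FA.card ≤ _ := Finset.card_le_card h1
    _ ≤ _ := Finset.card_union_le _ _
    _ ≤ _ := Nat.add_le_add_left Finset.card_image_le _
    _ = _ := by
      rw [card_product, Nat.card_Ico, show O.n - 2 - 1 = O.n - 3 by omega]

theorem FZ_subset_V : O.FZ ⊆ O.V := fun _ h => O.E_subset_V (O.FZ_subset_E h)

theorem FZ_unique {p q : G} (hp : p ∈ O.FZ) (hq : q ∈ O.FZ) {i : ℕ} (h : (O.R ^ i) p = q) :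
    p = q := by
  obtain ⟨j, hj⟩ := O.hR.back p i
  rw [h] at hj
  have h1 := O.mem_FZ.1 hp i
  have h2 := O.mem_FZ.1 hq j
  rw [h] at h1
  rw [hj] at h2
  exact O.inj (le_antisymm h1 h2)

theorem card_G1 : O.G1.card ≤ O.V.card - O.FZ.card := by
  rw [← Finset.card_sdiff_of_subset O.FZ_subset_V]
  have hch : ∀ f ∈ O.G1, ∃ i : ℕ, (O.K ^ i) f ∉ O.FZ := by
    intro f hf
    have h := (mem_filter.1 hf).2
    unfold Pure at h
    push Not at h
    exact h
  choose! c hc using hch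
  refine Finset.card_le_card_of_injOn (fun f => (O.K ^ (c f)) f) ?_ ?_
  · intro f hf
    refine mem_coe.2 (mem_sdiff.2 ⟨?_, hc f hf⟩)
    obtain ⟨k, hk⟩ := O.hK.back f (c f)
    exact O.mem_V.2 ⟨k, by rw [hk]; exact O.FA_subset_E (mem_filter.1 hf).1⟩
  · intro f hf f' hf' e
    dsimp only at e
    obtain ⟨j, hj⟩ := O.hK.back f' (c f')
    rw [← e, ← pow_add_apply] at hj
    exact O.FA_unique (mem_filter.1 hf).1 (mem_filter.1 hf').1 hj

theorem card_entry : (O.FA.filter (fun f => ∃ i : ℕ, (O.K ^ i) f ∈ O.E ∧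
    0 < O.τ ((O.K ^ i) f) ∧ O.τ ((O.K ^ i) f) - 1 ∈ O.X)).card ≤ O.X.card := by
  have hch : ∀ f ∈ O.FA.filter (fun f => ∃ i : ℕ, (O.K ^ i) f ∈ O.E ∧
    0 < O.τ ((O.K ^ i) f) ∧ O.τ ((O.K ^ i) f) - 1 ∈ O.X), ∃ i : ℕ, (O.K ^ i) f ∈ O.E ∧
    0 < O.τ ((O.K ^ i) f) ∧ O.τ ((O.K ^ i) f) - 1 ∈ O.X := fun f hf => (mem_filter.1 hf).2
  choose! c hc using hch
  refine Finset.card_le_card_of_injOn (fun f => O.τ ((O.K ^ (c f)) f) - 1)
    (fun f hf => (hc f hf).2.2) ?_
  intro f hf f' hf' e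
  dsimp only at e
  have h1 := (hc f hf).2.1
  have h2 := (hc f' hf').2.1
  have h3 : (O.K ^ (c f)) f = (O.K ^ (c f')) f' := O.inj (by omega)
  obtain ⟨j, hj⟩ := O.hK.back f' (c f')
  rw [← h3, ← pow_add_apply] at hj
  exact O.FA_unique (mem_filter.1 hf).1 (mem_filter.1 hf').1 hj

theorem card_inner : (O.FA.filter (fun f => O.Pure f ∧ ∃ j : ℕ,
    O.τ ((O.R ^ j) ((O.K ^ (O.n - 2)) f)) + 1 ∈ O.X)).card ≤ O.X.card := by
  have hch : ∀ f ∈ O.FA.filter (fun f => O.Pure f ∧ ∃ j : ℕ,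
    O.τ ((O.R ^ j) ((O.K ^ (O.n - 2)) f)) + 1 ∈ O.X), ∃ j : ℕ,
    O.τ ((O.R ^ j) ((O.K ^ (O.n - 2)) f)) + 1 ∈ O.X := fun f hf => (mem_filter.1 hf).2.2
  choose! c hc using hch
  refine Finset.card_le_card_of_injOn (fun f => O.τ ((O.R ^ (c f)) ((O.K ^ (O.n - 2)) f)) + 1)
    (fun f hf => hc f hf) ?_
  intro f hf f' hf' e
  dsimp only at e
  have h3 : (O.R ^ (c f)) ((O.K ^ (O.n - 2)) f) = (O.R ^ (c f')) ((O.K ^ (O.n - 2)) f') :=
    O.inj (by omega)
  obtain ⟨j, hj⟩ := O.hR.back ((O.K ^ (O.n - 2)) f') (c f')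
  rw [← h3, ← pow_add_apply] at hj
  have h4 := O.FZ_unique ((mem_filter.1 hf).2.1 (O.n - 2)) ((mem_filter.1 hf').2.1 (O.n - 2)) hj
  exact (O.K ^ (O.n - 2)).injective h4

theorem card_exit : (O.FA.filter (fun f => O.τ (O.P f) + 2 ∈ O.X)).card ≤ O.X.card := by
  refine Finset.card_le_card_of_injOn (fun f => O.τ (O.P f) + 2)
    (fun f hf => (mem_filter.1 hf).2) ?_
  intro f _ f' _ e
  dsimp only at e
  exact P_inj (O := O) (O.inj (by omega))

theorem card_last : (O.FA.filter (fun f => O.P f ∈ O.LZ ∧ O.L < O.τ (O.P f) + 2)).card ≤ 1 := by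
  rw [Finset.card_le_one]
  have key : ∀ a b : G, O.P a ∈ O.LZ → O.τ (O.P a) + 1 ≠ O.τ (O.P b) := by
    intro a b ha h
    have h1 := O.F1 _ _ h.symm
    have h2 := O.mem_LZ.1 ha 1
    rw [← O.R_eq, ← h1] at h2
    omega
  intro a ha b hb
  obtain ⟨-, ha1, ha2⟩ := mem_filter.1 ha
  obtain ⟨-, hb1, hb2⟩ := mem_filter.1 hb
  have h1 := key a b ha1
  have h2 := key b a hb1
  have h3 := O.hL (O.P a)
  have h4 := O.hL (O.P b)
  exact P_inj (O := O) (O.inj (by omega))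

theorem card_NX : O.NX.card ≤ 3 * O.X.card + 1 := by
  have h : O.NX ⊆ (O.FA.filter (fun f => ∃ i : ℕ, (O.K ^ i) f ∈ O.E ∧
        0 < O.τ ((O.K ^ i) f) ∧ O.τ ((O.K ^ i) f) - 1 ∈ O.X)) ∪
      ((O.FA.filter (fun f => O.Pure f ∧ ∃ j : ℕ,
        O.τ ((O.R ^ j) ((O.K ^ (O.n - 2)) f)) + 1 ∈ O.X)) ∪
      ((O.FA.filter (fun f => O.τ (O.P f) + 2 ∈ O.X)) ∪
      (O.FA.filter (fun f => O.P f ∈ O.LZ ∧ O.L < O.τ (O.P f) + 2)))) := by
    intro f hf
    obtain ⟨h1, h2, h3⟩ := mem_filter.1 hf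
    simp only [mem_union, mem_filter]
    by_contra hcon
    push Not at hcon
    obtain ⟨c1, c2, c3, c4⟩ := hcon
    have hfree : O.Free f := ⟨c1 h1, c2 h1 h2, c3 h1⟩
    exact h3 ⟨hfree, c4 h1 (h2.last h1 hfree)⟩
  have h3 := O.card_entry
  have h4 := O.card_inner
  have h5 := O.card_exit
  have h6 := O.card_last
  calc O.NX.card ≤ _ := Finset.card_le_card h
    _ ≤ _ := Finset.card_union_le _ _
    _ ≤ _ := Nat.add_le_add_left (Finset.card_union_le _ _) _
    _ ≤ _ := Nat.add_le_add_left (Nat.add_le_add_left (Finset.card_union_le _ _) _) _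
    _ ≤ _ := by omega

theorem card_N0 : O.N0.card ≤ (O.G1 \ O.LF).card := by
  have hch : ∀ f ∈ O.N0, ∃ g ∈ O.G1 \ O.LF, O.τ g = O.τ (O.P f) + 3 := by
    intro f hf
    obtain ⟨h1, h2, h3, h4⟩ := mem_filter.1 hf
    obtain ⟨h5, h6⟩ := mem_filter.1 h1
    rcases h2.next h5 h3 h4 with h | ⟨g, hg, hg1, hg2, -⟩
    · exact absurd h h6
    · refine ⟨g, mem_sdiff.2 ⟨mem_filter.2 ⟨hg, hg2⟩, ?_⟩, hg1⟩
      intro hLF
      obtain ⟨-, h, -, hl, he⟩ := mem_filter.1 hLF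
      have h7 := hl.2.2
      rw [he, hg1] at h7
      have h8 : f = h := P_inj (O := O) (O.inj (by omega))
      subst h8
      exact h6 hl
  choose! s hs hs2 using hch
  refine Finset.card_le_card_of_injOn s (fun f hf => hs f hf) ?_
  intro f hf f' hf' e
  have h1 := hs2 f hf
  have h2 := hs2 f' hf'
  rw [e, h2] at h1
  exact P_inj (O := O) (O.inj (by omega))

theorem card_FA_le' : O.FA.card ≤ (O.n - 1) * O.G1.card + (O.n - 2) * O.NX.card := by
  have hn := O.hn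
  have h1 : O.NR ⊆ O.G1 ∪ (O.NX ∪ O.N0) := by
    intro f hf
    obtain ⟨h1, h2⟩ := mem_filter.1 hf
    by_cases h3 : O.Pure f
    · refine mem_union_right _ ?_
      by_cases h4 : O.Free f ∧ O.τ (O.P f) + 2 ≤ O.L
      · exact mem_union_right _ (mem_filter.2 ⟨hf, h3, h4⟩)
      · exact mem_union_left _ (mem_filter.2 ⟨h1, h3, h4⟩)
    · exact mem_union_left _ (mem_filter.2 ⟨h1, h3⟩)
  have h2 : O.NR ∩ O.LF ⊆ (O.G1 ∩ O.LF) ∪ (O.NX ∪ O.N0) := by
    intro f hf
    obtain ⟨h3, h4⟩ := mem_inter.1 hf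
    rcases mem_union.1 (h1 h3) with h | h
    · exact mem_union_left _ (mem_inter.2 ⟨h, h4⟩)
    · exact mem_union_right _ h
  have h3 := O.card_N0
  have h4 := Finset.card_sdiff_add_card_inter O.G1 O.LF
  have h5 : O.NR.card ≤ 2 * O.G1.card + O.NX.card := by
    have h6 : O.NR.card ≤ O.G1.card + (O.NX.card + O.N0.card) :=
      (Finset.card_le_card h1).trans ((Finset.card_union_le _ _).trans
        (Nat.add_le_add_left (Finset.card_union_le _ _) _))
    omega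
  have h6 : (O.NR ∩ O.LF).card ≤ O.G1.card + O.NX.card := by
    have h6 : (O.NR ∩ O.LF).card ≤ (O.G1 ∩ O.LF).card + (O.NX.card + O.N0.card) :=
      (Finset.card_le_card h2).trans ((Finset.card_union_le _ _).trans
        (Nat.add_le_add_left (Finset.card_union_le _ _) _))
    omega
  obtain ⟨k, hk⟩ := Nat.exists_eq_add_of_le hn
  have h7 := O.card_FA_le
  rw [show O.n - 3 = k by omega] at h7
  rw [show O.n - 1 = k + 2 by omega, show O.n - 2 = k + 1 by omega]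
  calc O.FA.card ≤ _ := h7
    _ ≤ (2 * O.G1.card + O.NX.card) + k * (O.G1.card + O.NX.card) :=
      Nat.add_le_add h5 (Nat.mul_le_mul_left _ h6)
    _ = _ := by ring

/-- **Abstract form of the lower bound.** -/
theorem bound (hG : Fintype.card G = O.n.factorial) :
    ∃ t : ℕ, O.n.factorial + (O.n - 1).factorial + (O.n - 2).factorial + t ≤ O.L + 3 ∧
      (O.n - 3).factorial ≤ O.n * t + 1 := by
  obtain ⟨k, hk⟩ := Nat.exists_eq_add_of_le O.hn
  have e1 : O.n - 1 = k + 2 := by omega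
  have e2 : O.n - 2 = k + 1 := by omega
  have e3 : O.n - 3 = k := by omega
  have e0 : O.n = k + 3 := by omega
  have h1 := O.card_G_LZ
  have h2 := O.card_G_FZ
  have h3 := O.card_V
  have h4 := O.count
  have h5 := O.card_FA_le'
  have h6 := O.card_G1
  have h6' := O.card_NX
  have h7 : O.FZ.card ≤ O.V.card := Finset.card_le_card O.FZ_subset_V
  rw [hG, e0, Nat.factorial_succ] at h1 h2
  have hz1 : O.LZ.card = (k + 2).factorial := (Nat.eq_of_mul_eq_mul_left (by omega) h1).symm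
  have hz2 : O.FZ.card = (k + 2).factorial := (Nat.eq_of_mul_eq_mul_left (by omega) h2).symm
  rw [e1] at h3
  rw [h3, hz2, Nat.factorial_succ] at h6 h7
  have h8 : (k + 1).factorial ≤ O.FA.card := Nat.le_of_mul_le_mul_left h7 (by omega)
  obtain ⟨e, he⟩ := Nat.exists_eq_add_of_le h8
  have h9 : (k + 2) * O.FA.card - (k + 1 + 1) * (k + 1).factorial = (k + 2) * e := by
    rw [he, Nat.mul_add]
    exact Nat.add_sub_cancel_left _ _
  rw [h9] at h6
  rw [hG, hz1] at h4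
  refine ⟨e + O.X.card, ?_, ?_⟩
  · rw [e1, e2]
    omega
  · rw [e3, e0]
    rw [e1, e2] at h5
    have h10 : O.FA.card ≤ (k + 2) * ((k + 2) * e) + (k + 1) * (3 * O.X.card + 1) :=
      h5.trans (Nat.add_le_add (Nat.mul_le_mul_left _ h6) (Nat.mul_le_mul_left _ h6'))
    rw [he, Nat.factorial_succ] at h10
    have h11 : (k + 1) * k.factorial ≤ (k + 1) * ((k + 3) * e + (3 * O.X.card + 1)) := by
      nlinarith
    have h12 := Nat.le_of_mul_le_mul_left h11 (by omega)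
    have h13 : 3 * O.X.card ≤ (k + 3) * O.X.card := Nat.mul_le_mul_right _ (by omega)
    have h14 : (k + 3) * (e + O.X.card) = (k + 3) * e + (k + 3) * O.X.card := Nat.mul_add _ _ _
    omega

end Occ

end Pool.Agent.Lib.MP_e0d433_co.Lower
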