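import Pool.Agent.Lib.MP_e0d433_co.Lower.Windows

/-!
# MP_e0d433_co, lower bound: the final theorem
-/

namespace Pool.Agent.Lib.MP_e0d433_co.Lower

open Finset

variable {m : ℕ}

theorem R_cons {p q : PG (m + 3)} {a : Fin (m + 3)} {l : List (Fin (m + 3))}
    (hp : p.1 = a :: l) (hq : q.1 = l ++ [a]) : rotE (m + 3) (m + 2) (by omega) p = q := by
  apply Subtype.ext
  have hl : l.length + 1 = m + 2 + 1 := by
    have := p.length
    rw [hp] at this
    simpa using this
  rw [rotE_val, hp, hq]
  have := rot_cons a l [] (m + 2 + 1) hl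
  simpa using this

theorem K_cons {p q : PG (m + 3)} {a b : Fin (m + 3)} {l : List (Fin (m + 3))}
    (hp : p.1 = a :: (l ++ [b])) (hq : q.1 = l ++ [a, b]) :
    rotE (m + 3) (m + 1) (by omega) p = q := by
  apply Subtype.ext
  have hl : l.length + 1 = m + 1 + 1 := by
    have := p.length
    rw [hp] at this
    simpa using this
  rw [rotE_val, hp, hq]
  exact rot_cons a l [b] (m + 1 + 1) hl

theorem K'_cons {p q : PG (m + 3)} {a b c : Fin (m + 3)} {l : List (Fin (m + 3))}
    (hp : p.1 = a :: (l ++ [b, c])) (hq : q.1 = l ++ [a, b, c]) :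
    rotE (m + 3) m (by omega) p = q := by
  apply Subtype.ext
  have hl : l.length + 1 = m + 1 := by
    have := p.length
    rw [hp] at this
    simpa using this
  rw [rotE_val, hp, hq]
  exact rot_cons a l [b, c] (m + 1) hl

/-- a permutation of the letters of `p` -/
def mk' (p : PG (m + 3)) (l : List (Fin (m + 3))) (h : l.Perm p.1) : PG (m + 3) :=
  ⟨l, perm_mem_perms p.2 h⟩

theorem exists_pg (p : PG (m + 3)) (l : List (Fin (m + 3))) (h : l.Perm p.1) :
    ∃ q : PG (m + 3), q.1 = l := ⟨mk' p l h, rfl⟩

/-- the data of a superpermutation -/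
noncomputable def occ {w : List (Fin (m + 3))} (hw : IsSuperperm (m + 3) w) : Occ (PG (m + 3)) where
  n := m + 3
  hn := by omega
  R := rotE (m + 3) (m + 2) (by omega)
  K := rotE (m + 3) (m + 1) (by omega)
  K' := rotE (m + 3) m (by omega)
  L := w.length - (m + 3)
  τ := first hw
  hR := rotE_free (m + 2) (by omega)
  hK := rotE_free (m + 1) (by omega)
  hK' := (rotE_free (n := m + 3) m (by omega)).pow
  inj := by
    intro p q h
    have h1 := first_win hw p
    rw [h] at h1
    exact h1.unique (first_win hw q)
  hL := by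
    intro p
    have := (first_win hw p).le (by omega)
    omega
  F1 := by
    intro p q h
    have h1 := first_win hw p
    have h2 := first_win hw q
    rw [h] at h2
    obtain ⟨s, hs, hq⟩ := h1.overlap (by omega) h2
    obtain ⟨a, b, c, l, hp, hl⟩ := exists_three (p := p) (by omega)
    rw [hp] at hs hq
    simp only [List.take_succ_cons, List.take_zero, List.perm_singleton] at hs
    subst hs
    simp only [List.drop_succ_cons, List.drop_zero] at hq
    exact (R_cons hp hq).symm
  F2 := by
    intro p q h
    have h1 := first_win hw p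
    have h2 := first_win hw q
    rw [h] at h2
    obtain ⟨s, hs, hq⟩ := h1.overlap (by omega) h2
    obtain ⟨a, b, c, l, hp, hl⟩ := exists_three (p := p) (by omega)
    have hp' := hp
    rw [hp] at hs hq
    simp only [List.take_succ_cons, List.take_zero] at hs
    simp only [List.drop_succ_cons, List.drop_zero] at hq
    obtain ⟨r, hr⟩ := exists_pg p (b :: (c :: l ++ [a])) (by
      rw [hp]
      exact (List.perm_append_comm (l₁ := [a]) (l₂ := b :: c :: l)).symm)
    have e1 : rotE (m + 3) (m + 2) (by omega) p = r := R_cons hp hr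
    rcases perm_two hs with hs | hs
    · right
      subst hs
      rw [e1]
      refine ⟨(R_cons hr (by rw [hq]; simp)).symm, ?_⟩
      exact first_le hw r (Win.middle hl hp' hq hr h1 h2)
    · left
      subst hs
      rw [e1]
      exact (K_cons hr (by rw [hq])).symm
  F3 := by
    intro p q h
    have h1 := first_win hw p
    have h2 := first_win hw q
    rw [h] at h2
    obtain ⟨s, hs, hq⟩ := h1.overlap (by omega) h2
    obtain ⟨a, b, c, l, hp, hl⟩ := exists_three (p := p) (by omega)
    rw [hp] at hs hq
    simp only [List.take_succ_cons, List.take_zero] at hs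
    simp only [List.drop_succ_cons, List.drop_zero] at hq
    -- `R p`
    obtain ⟨r, hr⟩ := exists_pg p (b :: (c :: l ++ [a])) (by
      rw [hp]
      exact (List.perm_append_comm (l₁ := [a]) (l₂ := b :: c :: l)).symm)
    have e1 : rotE (m + 3) (m + 2) (by omega) p = r := R_cons hp hr
    -- `R R p`
    obtain ⟨r2, hr2⟩ := exists_pg p (c :: (l ++ [a, b])) (by
      rw [hp]
      exact (List.perm_append_comm (l₁ := [a, b]) (l₂ := c :: l)).symm)
    have e2 : rotE (m + 3) (m + 2) (by omega) r = r2 := R_cons hr (by rw [hr2]; simp)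
    -- `K R p`
    obtain ⟨k, hk⟩ := exists_pg p (c :: (l ++ [b, a])) (by
      rw [hp]
      have : (c :: (l ++ [b, a])).Perm (c :: (l ++ [a, b])) :=
        List.Perm.cons _ (List.Perm.append_left _ (List.Perm.swap _ _ _))
      exact this.trans (List.perm_append_comm (l₁ := [a, b]) (l₂ := c :: l)).symm)
    have e3 : rotE (m + 3) (m + 1) (by omega) r = k := K_cons hr (by rw [hk]; simp)
    rw [e1, e2, e3]
    rcases perm_three hs with hs | hs | hs | hs | hs | hs <;> subst hs
    · left
      exact (R_cons hr2 (by rw [hq]; simp)).symm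
    · right; left
      exact (K_cons (l := l ++ [a]) (a := c) (b := b) (by rw [hr2]; simp) (by rw [hq]; simp)).symm
    · right; right; left
      exact (R_cons hk (by rw [hq]; simp)).symm
    · right; right; right; left
      exact (K_cons (l := l ++ [b]) (a := c) (b := a) (by rw [hk]; simp) (by rw [hq]; simp)).symm
    · right; right; right; right; left
      -- `K⁻¹ q`, `K⁻² q`
      obtain ⟨u, hu⟩ := exists_pg q (a :: (l ++ [c, b])) (by
        rw [hq]
        have h5 : (a :: (l ++ [c, b])).Perm (l ++ [a, c, b]) :=
          (List.perm_middle (l₁ := l) (l₂ := [c, b]) (a := a)).symm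
        exact h5.trans (List.Perm.append_left _ (List.Perm.swap _ _ _)))
      have e4 : rotE (m + 3) (m + 1) (by omega) u = q :=
        K_cons (l := l ++ [c]) (a := a) (b := b) (by rw [hu]; simp) (by rw [hq]; simp)
      obtain ⟨v, hv⟩ := exists_pg u (c :: (a :: l ++ [b])) (by
        rw [hu]
        exact (List.perm_middle (l₁ := a :: l) (l₂ := [b]) (a := c)).symm)
      have e5 : rotE (m + 3) (m + 1) (by omega) v = u :=
        K_cons hv (by rw [hu]; simp)
      have e6 : (rotE (m + 3) (m + 1) (by omega))⁻¹
          ((rotE (m + 3) (m + 1) (by omega))⁻¹ q) = v := by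
        rw [← e4, ← e5]; simp
      rw [e6]
      obtain ⟨x, hx⟩ := exists_pg v (a :: (l ++ [b, c])) (by
        rw [hv]
        have := (List.perm_append_comm (l₁ := [c]) (l₂ := a :: (l ++ [b]))).symm
        simpa using this)
      have e7 : rotE (m + 3) (m + 2) (by omega) v = x := R_cons hv (by rw [hx]; simp)
      obtain ⟨y, hy⟩ := exists_pg x (l ++ [b, c, a]) (by
        rw [hx]
        have := (List.perm_append_comm (l₁ := [a]) (l₂ := l ++ [b, c])).symm
        simpa using this)
      have e8 : rotE (m + 3) (m + 2) (by omega) x = y := R_cons hx (by rw [hy]; simp)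
      have e9 : rotE (m + 3) (m + 1) (by omega) k = y :=
        K_cons (l := l ++ [b]) (a := c) (b := a) (by rw [hk]; simp) (by rw [hy]; simp)
      rw [e7, e8, e9]
    · right; right; right; right; right
      exact (K'_cons hk (by rw [hq])).symm

theorem card_PG (n : ℕ) : Fintype.card (PG n) = n.factorial := by
  rw [Fintype.card_coe, card_perms, Finset.card_univ, Fintype.card_fin]

/-- the lower bound for every superpermutation -/
theorem superperm_bound {n : ℕ} (hn : 3 ≤ n) {w : List (Fin n)} (hw : IsSuperperm n w) :
    ∃ t : ℕ, n.factorial + (n - 1).factorial + (n - 2).factorial + (n - 3) + t ≤ w.length ∧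
      (n - 3).factorial ≤ n * t + 1 := by
  obtain ⟨m, rfl⟩ := Nat.exists_eq_add_of_le' hn
  obtain ⟨t, h1, h2⟩ := (occ hw).bound (card_PG (m + 3))
  change (m + 3).factorial + (m + 3 - 1).factorial + (m + 3 - 2).factorial + t ≤
    w.length - (m + 3) + 3 at h1
  change (m + 3 - 3).factorial ≤ (m + 3) * t + 1 at h2
  refine ⟨t, ?_, h2⟩
  have h3 : m + 3 ≤ (m + 3).factorial := Nat.self_le_factorial _
  have h4 : 0 < (m + 3 - 1).factorial := Nat.factorial_pos _
  have h5 : 0 < (m + 3 - 2).factorial := Nat.factorial_pos _
  by_cases h6 : m + 3 ≤ w.length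
  · omega
  · exfalso
    have h7 : w.length - (m + 3) = 0 := by omega
    rw [h7] at h1
    have : 2 ≤ (m + 3 - 1).factorial := by
      have : 2 ≤ m + 3 - 1 := by omega
      exact this.trans (Nat.self_le_factorial _)
    omega

end Pool.Agent.Lib.MP_e0d433_co.Lower
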