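import Pool.Agent.Lib.MP_e0d433_co.Lower.Abstract

/-!
# MP_e0d433_co, lower bound: linked 2-loops

`p_f = R⁻¹ (K⁻¹ f)` is the last permutation of the 2-loop with first entry `f`, if this 2-loop is
run through without interruption.  The 2-loop is linked (to the next one) if the walk goes from
`p_f` directly to `K' f`, in three steps.
-/

namespace Pool.Agent.Lib.MP_e0d433_co.Lower

open Finset Classical

variable {G : Type*} [Fintype G] (O : Occ G)

namespace Occ

/-- the last permutation of the 2-loop starting at `f` -/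
def P (f : G) : G := (O.R ^ (O.n - 1)) ((O.K ^ (O.n - 2)) f)

/-- the walk goes from the end of the 2-loop of `h` directly to `K' h` -/
def Linked (h : G) : Prop :=
  O.K' h ∈ O.FA ∧ O.τ h < O.τ (O.K' h) ∧ O.τ (O.K' h) = O.τ (O.P h) + 3

/-- every 1-loop of the 2-loop of `f` is first entered through this 2-loop -/
def Pure (f : G) : Prop := ∀ i : ℕ, (O.K ^ i) f ∈ O.FZ

/-- no extra wasted position is attached to the 2-loop of `f` -/
structure Free (f : G) : Prop where
  entry : ∀ i : ℕ, (O.K ^ i) f ∈ O.E → 0 < O.τ ((O.K ^ i) f) → O.τ ((O.K ^ i) f) - 1 ∉ O.X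
  inner : ∀ j : ℕ, O.τ ((O.R ^ j) ((O.K ^ (O.n - 2)) f)) + 1 ∉ O.X
  exit : O.τ (O.P f) + 2 ∉ O.X

variable {O}

omit [Fintype G] in
theorem RP (f : G) : O.R (O.P f) = (O.K ^ (O.n - 2)) f := by
  have hn := O.hn
  rw [P, ← pow_succ_apply, show O.n - 1 + 1 = O.n by omega, O.hR.pow]; rfl

omit [Fintype G] in
theorem KRP (f : G) : O.K (O.R (O.P f)) = f := by
  have hn := O.hn
  rw [RP, ← pow_succ_apply, show O.n - 2 + 1 = O.n - 1 by omega, O.hK.pow]; rfl

omit [Fintype G] in
theorem P_inj {f g : G} (h : O.P f = O.P g) : f = g := by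
  rw [← KRP (O := O) f, h, KRP]

/-- a wasted position which is not extra -/
theorem W_cases {i : ℕ} (hW : i ∈ O.W) (hX : i ∉ O.X) :
    (∃ p ∈ O.LZ, i = O.τ p + 1) ∨ (∃ p ∈ O.FA, O.τ p = i + 1) := by
  by_contra hcon
  push Not at hcon
  apply hX
  refine O.mem_X.2 ⟨hW, ?_, ?_⟩
  · intro h
    obtain ⟨-, p, hp, he⟩ := O.mem_M1.1 h
    exact hcon.1 p hp he
  · intro h
    obtain ⟨-, p, hp, he⟩ := O.mem_M2.1 h
    exact hcon.2 p hp he

theorem LZ_R {p : G} (hp : p ∈ O.LZ) : O.τ (O.R (O.R p)) ≤ O.τ p := by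
  have := O.mem_LZ.1 hp 2
  rwa [show (O.R ^ 2) p = O.R (O.R p) by rw [pow_two, Equiv.Perm.mul_apply]] at this

theorem FZ_le {q : G} (hq : q ∈ O.FZ) (j : ℕ) : O.τ q ≤ O.τ ((O.R ^ j) q) := O.mem_FZ.1 hq j

/-- going from one 1-loop of a pure 2-loop to the next -/
theorem Pure.step {f : G} (hf : f ∈ O.FA) (h : O.Pure f) (hfree : O.Free f) (i : ℕ)
    (hi : i + 1 < O.n - 1) :
    (O.R ^ (O.n - 1)) ((O.K ^ i) f) ∈ O.LZ ∧
      O.τ ((O.K ^ (i + 1)) f) = O.τ ((O.R ^ (O.n - 1)) ((O.K ^ i) f)) + 2 := by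
  have hn := O.hn
  set q := (O.K ^ (i + 1)) f with hq
  have hqf : q ≠ f := O.hK.free f (i + 1) (by omega) hi
  have hqE : q ∈ O.E := O.FZ_subset_E (h (i + 1))
  have h1 : O.τ f ≤ O.τ q := (O.mem_FA.1 hf).2 (i + 1) hqE
  have h2 : O.τ f < O.τ q := lt_of_le_of_ne h1 (fun e => hqf (O.inj e.symm))
  have hW : O.τ q - 1 ∈ O.W := by
    have := O.hL q
    refine O.mem_W.2 ⟨by omega, ?_⟩
    intro p hp
    exact O.mem_E.1 hqE p (by omega)
  have hX := hfree.entry (i + 1) hqE (lt_of_le_of_lt (Nat.zero_le _) h2)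
  rcases W_cases hW hX with ⟨p, hp, hpe⟩ | ⟨g, hg, hge⟩
  · have h4 : O.τ q = O.τ p + 2 := by omega
    rcases O.F2 p q h4 with h5 | ⟨h5, -⟩
    · have h6 : O.R p = (O.K ^ i) f := by
        rw [hq, pow_succ_apply] at h5
        exact (O.K.injective h5).symm
      have h7 : p = (O.R ^ (O.n - 1)) ((O.K ^ i) f) := by
        rw [← h6, ← Equiv.Perm.mul_apply, ← pow_succ,
          show O.n - 1 + 1 = O.n by omega, O.hR.pow]
        rfl
      rw [← h7]
      exact ⟨hp, h4⟩
    · have h6 := LZ_R hp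
      rw [← h5] at h6
      omega
  · have h4 : O.τ g = O.τ q := by omega
    have h5 := O.inj h4
    subst h5
    exact absurd (O.FA_unique hf hg hq.symm).symm hqf

theorem Pure.mono {f : G} (hf : f ∈ O.FA) (h : O.Pure f) (hfree : O.Free f) (i : ℕ)
    (hi : 0 < i) (hi' : i < O.n - 1) : O.τ (O.K f) ≤ O.τ ((O.K ^ i) f) := by
  induction i with
  | zero => omega
  | succ i ih =>
    by_cases h0 : i = 0
    · subst h0; simp
    · have h1 := ih (by omega) (by omega)
      have h2 := (h.step hf hfree i hi').2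
      have h3 := FZ_le (h i) (O.n - 1)
      omega

/-- the last permutation of a pure 2-loop is the last visited one in its 1-loop -/
theorem Pure.last {f : G} (hf : f ∈ O.FA) (h : O.Pure f) (hfree : O.Free f) : O.P f ∈ O.LZ := by
  have hn := O.hn
  set q := (O.K ^ (O.n - 2)) f with hq
  have hqZ : q ∈ O.FZ := h (O.n - 2)
  have hP : O.P f = (O.R ^ (O.n - 1)) q := rfl
  have hRP : O.R (O.P f) = q := RP f
  have hKq : O.K q = f := by rw [← hRP]; exact KRP f
  have hfq : O.τ f ≤ O.τ q := (O.mem_FA.1 hf).2 (O.n - 2) (O.FZ_subset_E hqZ)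
  have hqP : O.τ q ≤ O.τ (O.P f) := FZ_le hqZ _
  have hne : q ≠ O.P f := by
    intro e
    rw [hP] at e
    exact O.hR.free q (O.n - 1) (by omega) (by omega) e.symm
  have hqP' : O.τ q < O.τ (O.P f) := lt_of_le_of_ne hqP (fun e => hne (O.inj e))
  by_contra hcon
  rw [O.mem_LZ] at hcon
  push Not at hcon
  obtain ⟨j, hj⟩ := hcon
  have hL := O.hL ((O.R ^ j) (O.P f))
  have hW : O.τ (O.P f) + 1 ∈ O.W := by
    refine O.mem_W.2 ⟨by omega, ?_⟩
    intro r hr
    have h1 := O.F1 _ r hr
    rw [hRP] at h1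
    subst h1
    omega
  rcases W_cases hW (hfree.inner (O.n - 1)) with ⟨p, hp, hpe⟩ | ⟨g, hg, hge⟩
  · have h1 : p = O.P f := O.inj (by omega)
    rw [h1] at hp
    have := O.mem_LZ.1 hp j
    omega
  · have h1 : O.τ g = O.τ (O.P f) + 2 := by omega
    rcases O.F2 _ g h1 with h2 | ⟨h2, -⟩
    · rw [hRP, hKq] at h2
      subst h2
      omega
    · rw [hRP] at h2
      -- `g = R q` is a first entry; look at the exit from `q`
      have hW2 : O.τ q + 1 ∈ O.W := by
        refine O.mem_W.2 ⟨by omega, ?_⟩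
        intro r hr
        have h3 := O.F1 _ r hr
        rw [← h2] at h3
        subst h3
        omega
      have hX2 := hfree.inner 0
      rw [pow_zero, Equiv.Perm.one_apply] at hX2
      rcases W_cases hW2 hX2 with ⟨p, hp, hpe⟩ | ⟨g2, hg2, hge2⟩
      · have h3 : p = q := O.inj (by omega)
        rw [h3] at hp
        have := O.mem_LZ.1 hp (O.n - 1)
        rw [← hP] at this
        omega
      · have h3 : O.τ g2 = O.τ q + 2 := by omega
        rcases O.F2 _ g2 h3 with h4 | ⟨h4, h5⟩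
        · rw [← h2] at h4
          have h6 := O.FA_unique hg hg2 (i := 1) (by rw [← O.K_eq]; exact h4.symm)
          rw [← h6] at h3
          omega
        · rw [← h2] at h5
          omega

/-- A pure free 2-loop is linked, or it is followed by a non-pure 2-loop. -/
theorem Pure.next {f : G} (hf : f ∈ O.FA) (h : O.Pure f) (hfree : O.Free f)
    (hlast : O.τ (O.P f) + 2 ≤ O.L) :
    O.Linked f ∨ ∃ g ∈ O.FA, O.τ g = O.τ (O.P f) + 3 ∧ ¬ O.Pure g ∧ g ≠ O.K' f := by
  have hn := O.hn
  set q := (O.K ^ (O.n - 2)) f with hq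
  have hqZ : q ∈ O.FZ := h (O.n - 2)
  have hP : O.P f = (O.R ^ (O.n - 1)) q := rfl
  have hRP : O.R (O.P f) = q := RP f
  have hKq : O.K q = f := by rw [← hRP]; exact KRP f
  have hfq : O.τ f ≤ O.τ q := (O.mem_FA.1 hf).2 (O.n - 2) (O.FZ_subset_E hqZ)
  have hqP : O.τ q ≤ O.τ (O.P f) := FZ_le hqZ _
  have hPL := h.last hf hfree
  have hZ : ∀ j : ℕ, O.τ ((O.R ^ j) q) ≤ O.τ (O.P f) := by
    intro j
    have h1 := O.mem_LZ.1 hPL (j + 1)
    rw [pow_add_apply, pow_one, hRP] at h1
    exact h1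
  have hW : O.τ (O.P f) + 2 ∈ O.W := by
    refine O.mem_W.2 ⟨hlast, ?_⟩
    intro r hr
    rcases O.F2 _ r hr with h1 | ⟨h1, -⟩
    · rw [hRP, hKq] at h1
      subst h1; omega
    · have := LZ_R hPL
      rw [← h1] at this
      omega
  rcases W_cases hW hfree.exit with ⟨p, hp, hpe⟩ | ⟨g, hg, hge⟩
  · exfalso
    have h1 : O.τ p = O.τ (O.P f) + 1 := by omega
    have h2 := O.F1 _ p h1
    rw [hRP] at h2
    subst h2; omega
  · have hge' : O.τ g = O.τ (O.P f) + 3 := by omega
    -- a 2-loop containing an incidence which is not the first one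
    have hpure : ∀ (i : ℕ) (r : G), (O.K ^ i) r = g → r ∉ O.FZ → ¬ O.Pure g := by
      intro i r hr hrZ hp
      obtain ⟨j, hj⟩ := O.hK.back r i
      rw [hr] at hj
      exact hrZ (by rw [← hj]; exact hp j)
    have hRf : O.τ (O.R f) ≤ O.τ (O.P f) := by
      have h1 := h.step hf hfree 0 (by omega)
      simp only [pow_zero, Equiv.Perm.one_apply, zero_add, pow_one] at h1
      have h2 := O.mem_LZ.1 h1.1 2
      have h3 : (O.R ^ 2) ((O.R ^ (O.n - 1)) f) = O.R f := by
        rw [← pow_add_apply, show 2 + (O.n - 1) = 1 + O.n by omega, pow_add, O.hR.pow]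
        simp
      rw [h3] at h2
      have h4 := h.mono hf hfree (O.n - 2) (by omega) (by omega)
      rw [← hq] at h4
      omega
    have hcase := O.F3 _ g hge'
    rw [hRP, hKq] at hcase
    rcases hcase with h1 | h1 | h1 | h1 | h1 | h1
    · exfalso
      have h2 := hZ 2
      rw [show (O.R ^ 2) q = O.R (O.R q) by rw [pow_two, Equiv.Perm.mul_apply], ← h1] at h2
      omega
    · by_cases hK' : g = O.K' f
      · left
        rw [hK'] at hg hge'
        exact ⟨hg, by omega, hge'⟩
      · right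
        refine ⟨g, hg, hge', hpure 1 (O.R q) (by rw [pow_one]; exact h1.symm) ?_, hK'⟩
        intro h2
        have h3 : O.τ (O.R q) = O.τ q := by
          obtain ⟨j, hj⟩ := O.hR.back q 1
          have h4 := FZ_le h2 j
          rw [O.R_eq, hj] at h4
          have h5 := FZ_le hqZ 1
          rw [← O.R_eq] at h5
          rw [← O.R_eq] at h4
          omega
        exact O.hR.free q 1 (by omega) (by omega) (by rw [pow_one]; exact O.inj h3)
    · exfalso
      rw [← h1] at hRf
      omega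
    · exfalso
      have := O.FA_unique hf hg (i := 1) (by rw [← O.K_eq]; exact h1.symm)
      subst this; omega
    · by_cases hK' : g = O.K' f
      · left
        rw [hK'] at hg hge'
        exact ⟨hg, by omega, hge'⟩
      · right
        set r := (O.K⁻¹) ((O.K⁻¹) g) with hr
        have hrK : (O.K ^ 2) r = g := by
          rw [pow_two, Equiv.Perm.mul_apply, hr]; simp
        have hrR : (O.R ^ 2) r = O.K f := by rw [pow_two, Equiv.Perm.mul_apply]; exact h1
        refine ⟨g, hg, hge', hpure 2 r hrK ?_, hK'⟩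
        intro h2
        have hKf : O.K f ∈ O.FZ := by
          have := h 1
          rwa [← O.K_eq] at this
        have h3 := FZ_le h2 2
        obtain ⟨j, hj⟩ := O.hR.back r 2
        rw [hrR] at hj h3
        have h4 := FZ_le hKf j
        rw [hj] at h4
        have h5 : r = O.K f := O.inj (le_antisymm h3 h4)
        rw [← hrR] at h5
        exact O.hR.free r 2 (by omega) (by omega) h5.symm
    · left
      rw [h1] at hg hge'
      exact ⟨hg, by omega, hge'⟩

end Occ

end Pool.Agent.Lib.MP_e0d433_co.Lower
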