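import Mathlib

/-!
# MP_e0d433_co, lower bound: counting orbits of a free cyclic action
-/

namespace Pool.Agent.Lib.MP_e0d433_co.Lower

open Finset Classical

variable {G : Type*}

theorem pow_add_apply (P : Equiv.Perm G) (i j : ℕ) (p : G) :
    (P ^ (i + j)) p = (P ^ i) ((P ^ j) p) := by
  rw [pow_add, Equiv.Perm.mul_apply]

theorem pow_succ_apply (P : Equiv.Perm G) (i : ℕ) (p : G) :
    (P ^ (i + 1)) p = P ((P ^ i) p) := by
  rw [pow_succ', Equiv.Perm.mul_apply]

/-- `P` acts freely with all orbits of size `N`. -/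
structure FreeCyc (P : Equiv.Perm G) (N : ℕ) : Prop where
  pos : 0 < N
  pow : P ^ N = 1
  free : ∀ (p : G) (i : ℕ), 0 < i → i < N → (P ^ i) p ≠ p

theorem FreeCyc.pow_eq {P : Equiv.Perm G} {N : ℕ} (h : FreeCyc P N) {p : G} {i j : ℕ}
    (hi : i < N) (hj : j < N) (e : (P ^ i) p = (P ^ j) p) : i = j := by
  wlog hij : i ≤ j generalizing i j
  · exact (this hj hi e.symm (by omega)).symm
  by_contra hne
  have h1 : (P ^ j) p = (P ^ i) ((P ^ (j - i)) p) := by
    rw [← pow_add_apply]; congr 2; omega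
  rw [h1] at e
  exact h.free p (j - i) (by omega) (by omega) ((P ^ i).injective e).symm

theorem FreeCyc.mod {P : Equiv.Perm G} {N : ℕ} (h : FreeCyc P N) (p : G) (i : ℕ) :
    (P ^ i) p = (P ^ (i % N)) p := by
  conv_lhs => rw [← Nat.div_add_mod i N, pow_add, pow_mul, h.pow, one_pow, one_mul]

theorem FreeCyc.back {P : Equiv.Perm G} {N : ℕ} (h : FreeCyc P N) (p : G) (i : ℕ) :
    ∃ j, (P ^ j) ((P ^ i) p) = p := by
  refine ⟨N - i % N, ?_⟩
  rw [h.mod p i, ← pow_add_apply]
  have : N - i % N + i % N = N := by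
    have := Nat.mod_lt i h.pos
    omega
  rw [this, h.pow]; rfl

/-- the elements of `E` which are minimal for `f` among the elements of `E` in their orbit -/
noncomputable def firsts (P : Equiv.Perm G) (f : G → ℤ) (E : Finset G) : Finset G :=
  E.filter (fun p => ∀ i : ℕ, (P ^ i) p ∈ E → f p ≤ f ((P ^ i) p))

theorem mem_firsts {P : Equiv.Perm G} {f : G → ℤ} {E : Finset G} {p : G} :
    p ∈ firsts P f E ↔ p ∈ E ∧ ∀ i : ℕ, (P ^ i) p ∈ E → f p ≤ f ((P ^ i) p) := by
  simp [firsts]

/-- the union of the orbits meeting `E` -/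
noncomputable def hull [Fintype G] (P : Equiv.Perm G) (E : Finset G) : Finset G :=
  univ.filter (fun q => ∃ i : ℕ, (P ^ i) q ∈ E)

theorem mem_hull [Fintype G] {P : Equiv.Perm G} {E : Finset G} {p : G} :
    p ∈ hull P E ↔ ∃ i : ℕ, (P ^ i) p ∈ E := by
  simp [hull]

theorem FreeCyc.card [Fintype G] {P : Equiv.Perm G} {N : ℕ} (h : FreeCyc P N) (f : G → ℤ)
    (hf : Function.Injective f) (E : Finset G) :
    (hull P E).card = N * (firsts P f E).card := by
  have e0 : N * (firsts P f E).card = (range N ×ˢ firsts P f E).card := by simp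
  rw [e0]
  symm
  refine Finset.card_bij (fun x _ => (P ^ x.1) x.2) ?_ ?_ ?_
  · rintro ⟨i, p⟩ hx
    simp only [mem_firsts, mem_product, mem_range] at hx
    simp only [mem_hull]
    obtain ⟨j, hj⟩ := h.back p i
    exact ⟨j, by rw [hj]; exact hx.2.1⟩
  · rintro ⟨i, p⟩ hx ⟨j, q⟩ hy e
    simp only [mem_firsts, mem_product, mem_range] at hx hy e
    obtain ⟨a, ha⟩ := h.back p i
    obtain ⟨b, hb⟩ := h.back q j
    have h1 : (P ^ (b + i)) p = q := by rw [pow_add_apply, e, hb]
    have h2 : (P ^ (a + j)) q = p := by rw [pow_add_apply, ← e, ha]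
    have h3 : f p ≤ f q := by
      have := hx.2.2 (b + i) (by rw [h1]; exact hy.2.1)
      rwa [h1] at this
    have h4 : f q ≤ f p := by
      have := hy.2.2 (a + j) (by rw [h2]; exact hx.2.1)
      rwa [h2] at this
    have h5 : p = q := hf (le_antisymm h3 h4)
    subst h5
    have := h.pow_eq hx.1 hy.1 e
    rw [this]
  · intro q hq
    simp only [mem_hull] at hq
    obtain ⟨i, hi⟩ := hq
    have hne : ((range N).filter (fun j => (P ^ j) q ∈ E)).Nonempty := by
      refine ⟨i % N, ?_⟩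
      simp only [mem_filter, mem_range]
      exact ⟨Nat.mod_lt i h.pos, by rw [← h.mod]; exact hi⟩
    obtain ⟨j, hj, hmin⟩ := Finset.exists_min_image _ (fun j => f ((P ^ j) q)) hne
    simp only [mem_filter, mem_range] at hj hmin
    obtain ⟨a, ha⟩ := h.back q j
    refine ⟨⟨a % N, (P ^ j) q⟩, ?_, ?_⟩
    · simp only [mem_firsts, mem_product, mem_range]
      refine ⟨Nat.mod_lt _ h.pos, hj.2, ?_⟩
      intro k hk
      rw [← pow_add_apply, h.mod _ (k + j)] at hk ⊢
      exact hmin _ ⟨Nat.mod_lt _ h.pos, hk⟩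
    · simp only
      rw [← h.mod, ha]

end Pool.Agent.Lib.MP_e0d433_co.Lower
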