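import Pool.Agent.Lib.MP_e0d433_co.Lower.Bound
import Pool.Agent.Lib.MP_e0d433_co.Count

/-!
# MP_e0d433_co, lower bound: windows of a superpermutation
-/

namespace Pool.Agent.Lib.MP_e0d433_co.Lower

open Finset

/-- rotation of the first `k` letters -/
def rot {α : Type*} (k i : ℕ) (l : List α) : List α := (l.take k).rotate i ++ l.drop k

theorem rot_perm {α : Type*} (k i : ℕ) (l : List α) : (rot k i l).Perm l := by
  have h : ((l.take k).rotate i ++ l.drop k).Perm (l.take k ++ l.drop k) :=
    (List.rotate_perm _ _).append_right _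
  rwa [List.take_append_drop] at h

theorem rot_rot {α : Type*} (k i j : ℕ) (l : List α) (hk : k ≤ l.length) :
    rot k i (rot k j l) = rot k (j + i) l := by
  have h : ((l.take k).rotate j).length = k := by simp [hk]
  unfold rot
  rw [List.take_left' h, List.drop_left' h, List.rotate_rotate]

theorem rot_self {α : Type*} (k : ℕ) (l : List α) (hk : k ≤ l.length) : rot k k l = l := by
  unfold rot
  have h : (l.take k).length = k := by simp [hk]
  conv_lhs => rw [← h]
  rw [h]
  have := List.rotate_length (l.take k)
  rw [h] at this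
  rw [this, List.take_append_drop]

theorem rot_zero {α : Type*} (k : ℕ) (l : List α) : rot k 0 l = l := by
  simp [rot]

theorem rot_cons {α : Type*} (y : α) (m s : List α) (k : ℕ) (hk : m.length + 1 = k) :
    rot k 1 (y :: (m ++ s)) = m ++ y :: s := by
  subst hk
  simp [rot]

variable {n : ℕ}

/-- the set of all permutations -/
abbrev PG (n : ℕ) : Type := ↥(perms (univ : Finset (Fin n)))

theorem PG.length (p : PG n) : p.1.length = n := by
  rw [length_of_mem_perms p.2]; simp

/-- rotation of the first `k` letters, as a permutation of the set of all permutations -/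
def rotE (n k : ℕ) (hk : k + 1 ≤ n) : Equiv.Perm (PG n) where
  toFun p := ⟨rot (k + 1) 1 p.1, perm_mem_perms p.2 (rot_perm _ _ _)⟩
  invFun p := ⟨rot (k + 1) k p.1, perm_mem_perms p.2 (rot_perm _ _ _)⟩
  left_inv p := by
    apply Subtype.ext
    simp only
    rw [rot_rot _ _ _ _ (by rw [p.length]; exact hk), Nat.add_comm 1 k, rot_self _ _ (by rw [p.length]; exact hk)]
  right_inv p := by
    apply Subtype.ext
    simp only
    rw [rot_rot _ _ _ _ (by rw [p.length]; exact hk), rot_self _ _ (by rw [p.length]; exact hk)]

theorem rotE_val (k : ℕ) (hk : k + 1 ≤ n) (p : PG n) :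
    (rotE n k hk p).1 = rot (k + 1) 1 p.1 := rfl

theorem rotE_pow (k : ℕ) (hk : k + 1 ≤ n) (p : PG n) (i : ℕ) :
    (((rotE n k hk) ^ i) p).1 = rot (k + 1) i p.1 := by
  induction i with
  | zero => simp [rot_zero]
  | succ i ih =>
    rw [pow_succ_apply, rotE_val, ih, rot_rot _ _ _ _ (by rw [p.length]; exact hk)]

theorem rotE_free (k : ℕ) (hk : k + 1 ≤ n) : FreeCyc (rotE n k hk) (k + 1) := by
  refine ⟨by omega, ?_, ?_⟩
  · ext1 p
    apply Subtype.ext
    rw [rotE_pow, rot_self _ _ (by rw [p.length]; exact hk)]
    rfl
  · intro p i hi hik h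
    have h1 := congrArg Subtype.val h
    rw [rotE_pow] at h1
    have h2 : (p.1.take (k + 1)).rotate i ++ p.1.drop (k + 1) =
        p.1.take (k + 1) ++ p.1.drop (k + 1) := by
      rw [List.take_append_drop]; exact h1
    have h3 : (p.1.take (k + 1)).rotate i = p.1.take (k + 1) := List.append_cancel_right h2
    have hlen : (p.1.take (k + 1)).length = k + 1 := by simp [p.length]; omega
    have hnd : (p.1.take (k + 1)).Nodup := (nodup_of_mem_perms p.2).sublist (List.take_sublist _ _)
    have h4 := (hnd.rotate_congr_iff (i := i) (j := 0)).1 (by rw [h3, List.rotate_zero])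
    rw [hlen] at h4
    rcases h4 with h4 | h4
    · rw [Nat.mod_eq_of_lt hik] at h4
      simp at h4; omega
    · rw [h4] at hlen; simp at hlen

/-! ## windows -/

/-- `p` is the window of `w` at position `i` -/
def Win (w : List (Fin n)) (i : ℕ) (p : PG n) : Prop := (w.drop i).take n = p.1

theorem Win.le {w : List (Fin n)} {i : ℕ} {p : PG n} (hn : 0 < n) (h : Win w i p) :
    i + n ≤ w.length := by
  have h1 := congrArg List.length h
  rw [p.length] at h1
  simp only [List.length_take, List.length_drop] at h1
  omega

theorem Win.unique {w : List (Fin n)} {i : ℕ} {p q : PG n} (h : Win w i p) (h' : Win w i q) :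
    p = q := Subtype.ext (h.symm.trans h')

/-- the overlap of two windows -/
theorem Win.overlap {w : List (Fin n)} {i k : ℕ} {p q : PG n} (hk : k ≤ n)
    (h : Win w i p) (h' : Win w (i + k) q) :
    ∃ s : List (Fin n), s.Perm (p.1.take k) ∧ q.1 = p.1.drop k ++ s := by
  have e : q.1.take (n - k) = p.1.drop k := by
    rw [← h', ← h, List.take_take, List.drop_take, List.drop_drop]
    congr 1
    omega
  have h1 : q.1 = p.1.drop k ++ q.1.drop (n - k) := by
    conv_lhs => rw [← List.take_append_drop (n - k) q.1, e]
  refine ⟨q.1.drop (n - k), ?_, h1⟩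
  have h2 : q.1.Perm p.1 := perms_perm q.2 p.2
  have h3 : (p.1.drop k ++ q.1.drop (n - k)).Perm (p.1.take k ++ p.1.drop k) := by
    rw [← h1, List.take_append_drop]; exact h2
  have h4 : (p.1.drop k ++ q.1.drop (n - k)).Perm (p.1.drop k ++ p.1.take k) :=
    h3.trans List.perm_append_comm
  exact (List.perm_append_left_iff _).1 h4

/-- the window between two windows -/
theorem Win.middle {w : List (Fin n)} {i : ℕ} {p q r : PG n} {a b c : Fin n}
    {l : List (Fin n)} (hl : l.length + 3 = n) (hp : p.1 = a :: b :: c :: l)
    (hq : q.1 = c :: l ++ [a, b]) (hr : r.1 = b :: (c :: l ++ [a]))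
    (h : Win w i p) (h' : Win w (i + 2) q) : Win w (i + 1) r := by
  unfold Win at *
  have e2 : w.drop (i + 2) = (w.drop i).drop 2 := by rw [List.drop_drop]
  have e1 : w.drop (i + 1) = (w.drop i).drop 1 := by rw [List.drop_drop]
  rw [e2] at h'
  rw [e1]
  obtain ⟨v, hv⟩ : ∃ v, w.drop i = a :: b :: c :: l ++ v :=
    ⟨(w.drop i).drop n, by rw [← hp, ← h, List.take_append_drop]⟩
  rw [hv] at h' ⊢
  have e3 : (a :: b :: c :: l ++ v).drop 2 = (c :: l) ++ v := by simp
  have e4 : (a :: b :: c :: l ++ v).drop 1 = (b :: c :: l) ++ v := by simp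
  have e5 : (c :: l).length = n - 2 := by simp only [List.length_cons]; omega
  have e6 : (b :: c :: l).length = n - 1 := by simp only [List.length_cons]; omega
  rw [e3, hq, List.take_append, List.take_of_length_le (by omega), e5,
    show n - (n - 2) = 2 by omega] at h'
  have h1 : v.take 2 = [a, b] := List.append_cancel_left h'
  have h2 : v.take 1 = [a] := by
    have := congrArg (List.take 1) h1
    simpa [List.take_take] using this
  rw [e4, hr, List.take_append, List.take_of_length_le (by omega), e6,
    show n - (n - 1) = 1 by omega, h2]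
  simp

theorem exists_win {w : List (Fin n)} (hw : IsSuperperm n w) (p : PG n) : ∃ i, Win w i p := by
  obtain ⟨a, b, hab⟩ := hw p.1 (nodup_of_mem_perms p.2) p.length
  refine ⟨a.length, ?_⟩
  unfold Win
  rw [← hab, List.append_assoc, List.drop_left' rfl]
  exact List.take_left' p.length

open Classical in
/-- position of the first occurrence -/
noncomputable def first {w : List (Fin n)} (hw : IsSuperperm n w) (p : PG n) : ℕ :=
  Nat.find (exists_win hw p)

open Classical in
theorem first_win {w : List (Fin n)} (hw : IsSuperperm n w) (p : PG n) : Win w (first hw p) p :=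
  Nat.find_spec (exists_win hw p)

open Classical in
theorem first_le {w : List (Fin n)} (hw : IsSuperperm n w) (p : PG n) {i : ℕ} (h : Win w i p) :
    first hw p ≤ i :=
  Nat.find_min' (exists_win hw p) h

theorem exists_three {p : PG n} (hn : 3 ≤ n) : ∃ a b c l, p.1 = a :: b :: c :: l ∧
    l.length + 3 = n := by
  have h := p.length
  match hp : p.1 with
  | [] => rw [hp] at h; simp at h; omega
  | [a] => rw [hp] at h; simp at h; omega
  | [a, b] => rw [hp] at h; simp at h; omega
  | a :: b :: c :: l =>
    rw [hp] at h
    simp only [List.length_cons] at h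
    exact ⟨a, b, c, l, rfl, by omega⟩

theorem perm_three {α : Type*} {a b c : α} {s : List α} (h : s.Perm [a, b, c]) :
    s = [a, b, c] ∨ s = [a, c, b] ∨ s = [b, a, c] ∨ s = [b, c, a] ∨ s = [c, a, b] ∨
      s = [c, b, a] := by
  have h1 := List.mem_permutations.2 h
  simp [List.permutations, List.permutationsAux, List.permutationsAux.rec,
    List.permutationsAux2] at h1
  tauto

theorem perm_two {α : Type*} {a b : α} {s : List α} (h : s.Perm [a, b]) :
    s = [a, b] ∨ s = [b, a] := by
  have h1 := List.mem_permutations.2 h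
  simp [List.permutations, List.permutationsAux, List.permutationsAux.rec,
    List.permutationsAux2] at h1
  tauto

end Pool.Agent.Lib.MP_e0d433_co.Lower
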